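import Pool.Agent.X312.IO.Elem

/-!
# A gap law for the kernel of `Im(cl) ⊗ ℚ_ℓ → H(Y × X ^ n)`

Let `k` be an algebraically closed field of characteristic `p > 0`, `ℓ ≠ p`, and let `Y` be
**any** smooth projective variety over `k`. For `Z` smooth projective over `k` let `Im(cl_Z) ⊂
H(Z)` be the `ℚ`-subspace generated by the `ℓ`-adic classes of the cycles on `Z`, and

`ι_Z : Im(cl_Z) ⊗ ℚ_ℓ → H(Z)`

the map of the problem. Q1 says that it is injective. (If it is injective for the varieties over
the algebraic closure of a field then it is injective over the field.)

Let `X` be a smooth projective variety such that homological and numerical equivalence agree on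
all powers of `X`: for instance a product of elliptic curves over the algebraic closure of a
finite field (Spiess), or, for infinitely many `ℓ`, **any** abelian variety over the algebraic
closure of a finite field (Clozel). Let `b` be the sum of the Betti numbers of `X` and `ρ(X ^ n)`
the rank of the cycles of all codimensions on `X ^ n` modulo numerical equivalence. For all `m ≥
1`: `ι` **is injective for** `Y × X ^ m` **or for all** `n ≥ 1`

`dim ker ι_(Y × X ^ n) ≥ (1 - 4 (m + 3) b ^ (m + 5) log (n + 1) / n) ρ(X ^ n)`

(the dimension may be infinite). Nothing is assumed on `Y`. So one relation with coefficients in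
`ℚ_ℓ` between classes of cycles on one `Y × X ^ m` which does not come from relations with
rational coefficients gives almost `ρ(X ^ n)` independent ones on all `Y × X ^ n`, for large `n`.
(For a product of elliptic curves `ρ(X ^ n)` grows exponentially.) In particular `dim_ℚ Im(cl)` is
larger than the dimension of the space generated by `Im(cl)` by at least this number.

The proof. As intersection numbers are rational, `ι` is injective for a variety `Z` on which
homological and numerical equivalence agree: apply a linear functional `φ` of the `ℚ`-vector space
`ℚ_ℓ` to the coefficients of an element of the kernel; the element of `Im(cl_Z)` which one gets is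
numerically trivial. For an arbitrary `Y` let `T(Z)` be the kernel of `ι_(Y × Z)`. The
correspondences in `Im(cl_(Z × Z')) ⊗ ℚ_ℓ` act on `T`, by the composition `Im(cl_(Y × Z)) ×
Im(cl_(Z × Z')) → Im(cl_(Y × Z'))`. Let `P = X ^ m` and `T(P) ≠ 0`. One takes an idempotent
correspondence `g` on `P` of minimal rank with `g T(P) ≠ 0` and an element `z ≠ 0` of `g T(P)`.
The correspondences `x` with `x z = 0` have a nilpotent compression `g x g`, so the trace of `g x`
vanishes, and so `dim T(Z)` is at least the rank of the trace form `(u, v) ↦ tr (g v u)` on the
correspondences between `P` and `Z`; for `Z = X ^ n` this rank is compared with `ρ(X ^ n)` by the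
log-convexity of the sequence of the ranks of the intersection forms and by the symmetric group.
-/

set_option autoImplicit false

open CategoryTheory AlgebraicGeometry

universe u v w

namespace Pool.Agent.Results.MP_035963_ag.GapLaw

open Pool.Agent.H914 VarClass Obj WeilCohomology
open Pool.Agent.X312.IO (IsRatClass RatIndep IotaInjective KerIotaAtLeast)
open Pool.Agent.X312.FK (gapBound)
open Pool.Agent.Y133.Half (pw cycRank)

variable {k : Type u} [Field k] {𝒱 : VarClass k} {ops : CycleOps 𝒱}

/-- The sum of the Betti numbers of `X`. -/
noncomputable def totalBetti (W : WeilCohomology.{u, v} ops) (X : 𝒱.Obj) : ℕ :=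
  Module.finrank W.K (W.H X)

/-- **The gap law for the kernel of** `ι`. Here `IotaInjective W Z` says that classes in `Im(cl_Z)` which
are linearly independent over the rational numbers are linearly independent over the field of
coefficients, that is `ι_Z` is injective; `KerIotaAtLeast W Z x` says that there are `r` classes in
`Im(cl_Z)`, linearly independent over the rational numbers, which generate a subspace of dimension at
most `r - x`, that is `dim ker ι_Z ≥ x`; `cycRank ops Z` is `ρ(Z)`, and `pw X m` is the product of
`m + 1` copies of `X`. -/
theorem result (W : WeilCohomology.{u, v} ops) (X Y : 𝒱.Obj) (hX : ∀ n, HomEqNum W (pw X n))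
    (m : ℕ) :
    IotaInjective W (Y.prod (pw X m)) ∨
    ∀ n : ℕ, KerIotaAtLeast W (Y.prod (pw X n))
      (gapBound (totalBetti W X) (cycRank ops (pw X n)) m n) :=
  Pool.Agent.X312.IO.iota_law' X Y hX m

end Pool.Agent.Results.MP_035963_ag.GapLaw
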